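import Pool.Agent.Y1.KN.Stm8
import Pool.Agent.Y275.KN.Field

/-!
# Project KN (helper1), task KN-SUB: subgroups above the stabilizer of an embedding and subfields
-/

set_option autoImplicit false
set_option linter.unusedSectionVars false
set_option linter.unusedVariables false

namespace Pool.Agent.Y207.KN

open NumberField Module IntermediateField Pool.Agent.H204R3.CM Pool.Agent.TH170.MF
  Pool.Agent.H977R3.CM Pool.Agent.Y275.KN Pool.Agent.Y1.KN

/-- The subfields that are fixed by a subgroup above the stabilizer of an embedding. -/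
theorem exists_fields (E : Type) [Field E] [NumberField E] (φ₀ : E →+* ℂ)
    (T : (NN E ≃ₐ[ℚ] NN E) ≃* Gal E)
    (hT : ∀ g (ψ : E →+* ℂ) (x : E), (T g • ψ) x = (g ⟨ψ x, nn_mem E ψ x⟩ : ℂ)) :
    ∃ φ : E →ₐ[ℚ] NN E, (∀ x, φ x = ⟨φ₀ x, nn_mem E φ₀ x⟩) ∧
      ∀ A : Subgroup (Gal E), MulAction.stabilizer (Gal E) φ₀ ≤ A →
        ((fixedField (A.comap T.toMonoidHom)).comap φ).map φ =
          fixedField (A.comap T.toMonoidHom) := by
  let φr : E →+* NN E := φ₀.codRestrict (NN E).toSubfield.toSubring (nn_mem E φ₀)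
  let φ : E →ₐ[ℚ] NN E := RingHom.equivRatAlgHom E (NN E) φr
  have hφ : ∀ x, φ x = ⟨φ₀ x, nn_mem E φ₀ x⟩ := fun x => rfl
  refine ⟨φ, hφ, fun A hA => ?_⟩
  have hfix : φ.fieldRange.fixingSubgroup ≤ A.comap T.toMonoidHom := by
    intro g hg
    change T g ∈ A
    apply hA
    rw [MulAction.mem_stabilizer_iff]
    ext x
    rw [hT, ← hφ, (IntermediateField.mem_fixingSubgroup_iff _ g).1 hg (φ x) ⟨x, rfl⟩]
    rfl
  have hrange : fixedField (A.comap T.toMonoidHom) ≤ φ.fieldRange := by
    intro y hy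
    rw [← IsGalois.fixedField_fixingSubgroup φ.fieldRange]
    rw [mem_fixedField_iff] at hy ⊢
    exact fun g hg => hy g (hfix hg)
  ext y
  constructor
  · rintro ⟨x, hx, rfl⟩
    exact hx
  · intro hy
    obtain ⟨x, rfl⟩ := hrange hy
    exact ⟨x, hy, rfl⟩

/-- Task: subgroups above the stabilizer and subfields that are not real. -/
theorem sub : Pool.Agent.Y1.KN.P_sub := by
  intro E _ _ _ φ₀ c hc
  classical
  obtain ⟨T, hT⟩ := exists_iso E
  obtain ⟨φ, hφ, hmap⟩ := exists_fields E φ₀ T hT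
  have _ : Finite (IntermediateField ℚ E) :=
    (Field.exists_primitive_element_iff_finite_intermediateField ℚ E).1
      ⟨inferInstance, Field.exists_primitive_element ℚ E⟩
  unfold numSub
  refine Set.ncard_le_ncard_of_injOn (fun A => (fixedField (A.comap T.toMonoidHom)).comap φ)
    ?_ ?_ (Set.toFinite _)
  · rintro A ⟨hA, hcA⟩
    refine ⟨φ₀.comp (algebraMap _ E), fun hreal => ?_⟩
    apply hcA
    obtain ⟨g, rfl⟩ := T.surjective c
    have h1 : g ∈ (fixedField (A.comap T.toMonoidHom)).fixingSubgroup := by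
      rw [IntermediateField.mem_fixingSubgroup_iff]
      intro y hy
      rw [← hmap A hA] at hy
      obtain ⟨x, hx, rfl⟩ := hy
      have h3 := RingHom.congr_fun hreal ⟨x, hx⟩
      rw [ComplexEmbedding.conjugate_coe_eq] at h3
      have h4 := RingHom.congr_fun (hc φ₀) x
      rw [hT, ComplexEmbedding.conjugate_coe_eq] at h4
      have h5 : ((φ : E →+* NN E) x) = ⟨φ₀ x, nn_mem E φ₀ x⟩ := hφ x
      rw [h5]
      apply Subtype.ext
      exact h4.trans h3
    rw [fixingSubgroup_fixedField] at h1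
    exact h1
  · rintro A ⟨hA, -⟩ B ⟨hB, -⟩ hAB
    have h1 : fixedField (A.comap T.toMonoidHom) = fixedField (B.comap T.toMonoidHom) := by
      rw [← hmap A hA, ← hmap B hB]
      exact congrArg (IntermediateField.map φ) hAB
    have h2 : A.comap T.toMonoidHom = B.comap T.toMonoidHom := by
      rw [← fixingSubgroup_fixedField (A.comap T.toMonoidHom), h1, fixingSubgroup_fixedField]
    exact Subgroup.comap_injective T.surjective h2

/-- Task: trivial stabilizers. -/
theorem normal : Pool.Agent.Y1.KN.P_normal := by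
  intro E _ _ _ φ₀ hst
  obtain ⟨h1, h2⟩ := closure_degree E φ₀
  have h3 : Nat.card (MulAction.stabilizer (Gal E) φ₀) = 1 := by
    have h4 : MulAction.stabilizer (Gal E) φ₀ = ⊥ := by
      rw [eq_bot_iff]
      intro γ hγ
      exact (Subgroup.mem_bot).2 (hst γ hγ)
    rw [h4]
    exact Subgroup.card_bot
  rw [h3, one_mul] at h2
  obtain ⟨T, hT⟩ := exists_iso E
  obtain ⟨φ, hφ, -⟩ := exists_fields E φ₀ T hT
  have h5 : finrank ℚ E = finrank ℚ (NN E) := by rw [← h2, h1]
  have hbij : Function.Bijective φ := by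
    have h6 : Function.Injective φ := φ.toRingHom.injective
    exact ⟨h6, (LinearMap.injective_iff_surjective_of_finrank_eq_finrank
      (f := φ.toLinearMap) h5).1 h6⟩
  exact IsGalois.of_algEquiv (AlgEquiv.ofBijective φ hbij).symm

end Pool.Agent.Y207.KN
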